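import Mathlib

/-!
# MP_298761_ag: the variational Hodge conjecture and open subsets of the affine line

`Bases`: smooth connected complex varieties, their complex points, homotopy classes of paths and
connected finite étale covers, with the elementary facts on them which are used (`Facts`). (Any two
points of a complex variety are in the image of a smooth connected curve, so Q1 for smooth bases is
equivalent to Q1 for all bases.) `Theory`: families over such varieties (a smooth proper morphism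
`X → S`, `X` a finite union of varieties, and an `S`-linear admissible subcategory `C` of
`D_perf(X)`), the rational vector spaces `K₀ᵗᵒᵖ(C_s) ⊗ ℚ`, their subspaces of algebraic classes and
parallel transport.
-/

set_option autoImplicit false

namespace Pool.Agent.Results.MP_298761_ag.OneMorePoint

open MvPolynomial

/-- A nonempty Zariski open subset of `ℂⁿ`. -/
structure ZOpen (n : ℕ) where
  /-- the set -/
  carrier : Set (Fin n → ℂ)
  nonempty : carrier.Nonempty
  isOpen : ∃ I : Set (MvPolynomial (Fin n) ℂ), carrier = {x | ∃ p ∈ I, eval x p ≠ 0}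

/-- Zariski closed subsets of `ℂⁿ`. -/
def ZClosed {n : ℕ} (Z : Set (Fin n → ℂ)) : Prop :=
  ∃ I : Set (MvPolynomial (Fin n) ℂ), Z = {x | ∀ p ∈ I, eval x p = 0}

/-- The open subset `ℂ - B` of the affine line, `B` finite. -/
noncomputable def line (B : Finset ℂ) : ZOpen 1 where
  carrier := {x | x 0 ∉ B}
  nonempty := by
    obtain ⟨z, hz⟩ := Infinite.exists_notMem_finset B
    exact ⟨fun _ => z, hz⟩
  isOpen := by
    refine ⟨{∏ b ∈ B, (X 0 - C b)}, ?_⟩
    ext x
    simp only [Set.mem_ofPred_eq, Set.mem_singleton_iff, exists_eq_left, map_prod, map_sub, eval_X,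
      eval_C, ne_eq, Finset.prod_eq_zero_iff, not_exists, not_and]
    constructor
    · intro h b hb h0
      rw [sub_eq_zero] at h0
      exact h (h0 ▸ hb)
    · intro h hx
      exact h _ hx (sub_self _)

/-- Smooth connected complex varieties, complex points, morphisms, paths, and connected finite étale
covers. -/
structure Bases where
  /-- the varieties -/
  Obj : Type
  /-- the complex points -/
  Pt : Obj → Type
  /-- morphisms -/
  Mor : Obj → Obj → Type
  /-- the map on complex points -/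
  map : ∀ {S T : Obj}, Mor S T → Pt S → Pt T
  /-- open immersions -/
  Open : ∀ {S T : Obj}, Mor S T → Prop
  /-- homotopy classes of paths from `s` to `t` -/
  Path : ∀ {S : Obj}, Pt S → Pt S → Type
  /-- constant path -/
  refl : ∀ {S : Obj} (s : Pt S), Path s s
  /-- reversed path -/
  symm : ∀ {S : Obj} {s t : Pt S}, Path s t → Path t s
  /-- composition of paths -/
  trans : ∀ {S : Obj} {s t u : Pt S}, Path s t → Path t u → Path s u
  /-- the image of a path -/
  img : ∀ {S T : Obj} (f : Mor S T) {s t : Pt S}, Path s t → Path (map f s) (map f t)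
  /-- the open subsets of affine spaces are varieties -/
  aff : ∀ {n : ℕ}, ZOpen n → Obj
  /-- their points -/
  pt : ∀ {n : ℕ} (U : ZOpen n), Pt (aff U) ≃ U.carrier
  /-- the connected finite étale covers of `S` -/
  Cov : Obj → Type
  /-- the total space of a cover -/
  tot : ∀ {S : Obj}, Cov S → Obj
  /-- the projection of a cover -/
  proj : ∀ {S : Obj} (C : Cov S), Mor (tot C) S
  /-- the map from the fibre at `s` to the fibre at `t` given by lifting a path -/
  lift : ∀ {S : Obj} (C : Cov S) {s t : Pt S}, Path s t →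
    {x : Pt (tot C) // map (proj C) x = s} → {x : Pt (tot C) // map (proj C) x = t}

namespace Bases

variable (𝓑 : Bases)

/-- The points of `ℂ - B`. -/
abbrev Line (B : Finset ℂ) : Type := 𝓑.Pt (𝓑.aff (line B))

variable {𝓑}

/-- The coordinate of a point of `ℂ - B`. -/
noncomputable def coord {B : Finset ℂ} (z : 𝓑.Line B) : ℂ := (𝓑.pt (line B) z).1 0

/-- The image in `ℂ` of a point of a cover of `ℂ - B`. -/
noncomputable def val {B : Finset ℂ} {C : 𝓑.Cov (𝓑.aff (line B))} (x : 𝓑.Pt (𝓑.tot C)) : ℂ :=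
  coord (𝓑.map (𝓑.proj C) x)

/-- The fibre of a cover. -/
abbrev Fib {S : 𝓑.Obj} (C : 𝓑.Cov S) (s : 𝓑.Pt S) : Type :=
  {x : 𝓑.Pt (𝓑.tot C) // 𝓑.map (𝓑.proj C) x = s}

/-- A point of the fibre as a point of the total space. -/
abbrev up {S : 𝓑.Obj} {C : 𝓑.Cov S} {s : 𝓑.Pt S} (x : Fib C s) : 𝓑.Pt (𝓑.tot C) := x.1

/-- The cover `C` is Galois with group `G`: `G` acts simply transitively on the fibres, and its
action commutes with the lifting of paths. -/
structure Galois {S : 𝓑.Obj} (C : 𝓑.Cov S) (G : Type) [Group G] where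
  /-- the action -/
  act : G → 𝓑.Pt (𝓑.tot C) → 𝓑.Pt (𝓑.tot C)
  one : ∀ x, act 1 x = x
  mul : ∀ g h x, act (g * h) x = act g (act h x)
  proj_act : ∀ g x, 𝓑.map (𝓑.proj C) (act g x) = 𝓑.map (𝓑.proj C) x
  transitive : ∀ x y, 𝓑.map (𝓑.proj C) x = 𝓑.map (𝓑.proj C) y → ∃! g, act g x = y
  lift_act : ∀ {s t : 𝓑.Pt S} (γ : 𝓑.Path s t) (x : Fib C s) (g : G),
    (𝓑.lift C γ ⟨act g x.1, (proj_act g x.1).trans x.2⟩).1 = act g (𝓑.lift C γ x).1

variable (𝓑)

/-- Elementary facts on varieties, curves and covers. -/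
structure Facts : Prop where
  connected : ∀ {S : 𝓑.Obj} (s t : 𝓑.Pt S), Nonempty (𝓑.Path s t)
  /-- constant morphisms -/
  const : ∀ (S : 𝓑.Obj) {T : 𝓑.Obj} (t : 𝓑.Pt T), ∃ f : 𝓑.Mor S T, ∀ s, 𝓑.map f s = t
  /-- a polynomial without values in `B` on `U` is a morphism from `U` to `ℂ - B` -/
  poly : ∀ {n : ℕ} (U : ZOpen n) (B : Finset ℂ) (p : MvPolynomial (Fin n) ℂ),
    (∀ x ∈ U.carrier, eval x p ∉ B) → ∃ f : 𝓑.Mor (𝓑.aff U) (𝓑.aff (line B)),
      ∀ x, coord (𝓑.map f x) = eval (𝓑.pt U x).1 p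
  /-- a point `s` of `S` has a neighbourhood `S'` with finitely many functions with values in
  `ℂ - B` whose only common zero is `s` (multiples of coordinates) -/
  nbhd : ∀ {S : 𝓑.Obj} (s : 𝓑.Pt S) (B : Finset ℂ), (0 : ℂ) ∉ B → ∃ (S' : 𝓑.Obj) (e : 𝓑.Mor S' S)
    (s' : 𝓑.Pt S') (n : ℕ) (r : Fin n → 𝓑.Mor S' (𝓑.aff (line B))), 𝓑.Open e ∧ 𝓑.map e s' = s ∧
      ∀ t, (∀ j, coord (𝓑.map (r j) t) = 0) ↔ t = s'
  /-- if `S` is not a point, its nonempty open subsets are not points -/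
  open_two : ∀ {S' S : 𝓑.Obj} (e : 𝓑.Mor S' S), 𝓑.Open e → Nontrivial (𝓑.Pt S) →
    Nontrivial (𝓑.Pt S')
  /-- the fibres of a cover are finite and not empty -/
  fibre : ∀ {S : 𝓑.Obj} (C : 𝓑.Cov S) (s : 𝓑.Pt S), Finite (Fib C s) ∧ Nonempty (Fib C s)
  /-- unique lifting of paths -/
  lift_bijective : ∀ {S : 𝓑.Obj} (C : 𝓑.Cov S) {s t : 𝓑.Pt S} (γ : 𝓑.Path s t),
    Function.Bijective (𝓑.lift C γ)
  lift_iff : ∀ {S : 𝓑.Obj} (C : 𝓑.Cov S) (x y : 𝓑.Pt (𝓑.tot C))
    (γ : 𝓑.Path (𝓑.map (𝓑.proj C) x) (𝓑.map (𝓑.proj C) y)),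
    𝓑.lift C γ ⟨x, rfl⟩ = ⟨y, rfl⟩ ↔ ∃ δ : 𝓑.Path x y, 𝓑.img (𝓑.proj C) δ = γ
  /-- any two points `o`, `s` of a variety lie on a curve with a function whose only zero is `o`; after
  a base change `u = zᴺ` it is étale over `0` (and over the point below `s`) -/
  correspondence : ∀ {S : 𝓑.Obj} (o s : 𝓑.Pt S), ∃ (B : Finset ℂ) (C : 𝓑.Cov (𝓑.aff (line B)))
    (π : 𝓑.Mor (𝓑.tot C) S), (0 : ℂ) ∉ B ∧ (∀ x : 𝓑.Pt (𝓑.tot C), val x = 0 → 𝓑.map π x = o) ∧
      ∃ x, 𝓑.map π x = s
  /-- every finite group `G` is the group of a cover of some `ℂ - B` with points `c i` over given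
  points `u i` (Riemann), and there are functions `r j` from it to `ℂ - B₀` with zeros exactly at given
  points over the `u i` (Riemann and Roch) -/
  galois : ∀ (B₀ : Finset ℂ), (0 : ℂ) ∉ B₀ → ∀ (G : Type) [Group G] [Finite G] (m : ℕ)
    (u : Fin m → ℂ), Function.Injective u → ∀ (J : Type) [Finite J] (A : J → Set (Fin m × G)),
    ∃ (B : Finset ℂ) (C : 𝓑.Cov (𝓑.aff (line B))) (Γ : Galois C G) (c : Fin m → 𝓑.Pt (𝓑.tot C))
      (r : J → 𝓑.Mor (𝓑.tot C) (𝓑.aff (line B₀))), (∀ i, val (c i) = u i) ∧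
      ∀ j x, coord (𝓑.map (r j) x) = 0 ↔ ∃ p ∈ A j, x = Γ.act p.2 (c p.1)

end Bases

open Bases

/-- Isomorphisms of rational vector spaces. -/
abbrev Lin (V W : Type) [AddCommGroup V] [Module ℚ V] [AddCommGroup W] [Module ℚ W] : Type :=
  V ≃ₗ[ℚ] W

/-- The value of an isomorphism at a vector. -/
def Lin.app {V W : Type} [AddCommGroup V] [Module ℚ V] [AddCommGroup W] [Module ℚ W]
    (e : Lin V W) (v : V) : W := e v

/-- Linear maps of rational vector spaces. -/
abbrev Hom (V W : Type) [AddCommGroup V] [Module ℚ V] [AddCommGroup W] [Module ℚ W] : Type :=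
  V →ₗ[ℚ] W

/-- The value of a linear map at a vector. -/
def Hom.app {V W : Type} [AddCommGroup V] [Module ℚ V] [AddCommGroup W] [Module ℚ W]
    (f : Hom V W) (v : V) : W := f v

/-- Linear representations of `G` on the rational vector space `W`. -/
abbrev Rep (G W : Type) [Group G] [AddCommGroup W] [Module ℚ W] : Type := G →* (W →ₗ[ℚ] W)

/-- The action of an element of `G` on a vector. -/
def Rep.act {G W : Type} [Group G] [AddCommGroup W] [Module ℚ W] (ρ : Rep G W) (γ : G) (w : W) :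
    W := ρ γ w

/-- Families over varieties, the cohomology of the fibres, algebraic classes, parallel transport. -/
structure Families (𝓑 : Bases) where
  /-- families over `S`: a smooth proper `X → S` and an `S`-linear admissible subcategory `C` of
  `D_perf(X)` -/
  Fam : 𝓑.Obj → Type
  /-- the rational vector space `K₀ᵗᵒᵖ(C_s) ⊗ ℚ` -/
  V : ∀ {S : 𝓑.Obj}, Fam S → 𝓑.Pt S → Type
  [ab : ∀ {S : 𝓑.Obj} (X : Fam S) (s : 𝓑.Pt S), AddCommGroup (V X s)]
  [mod : ∀ {S : 𝓑.Obj} (X : Fam S) (s : 𝓑.Pt S), Module ℚ (V X s)]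
  /-- the subspace of the algebraic classes -/
  Alg : ∀ {S : 𝓑.Obj} (X : Fam S) (s : 𝓑.Pt S), Submodule ℚ (V X s)
  /-- parallel transport along a path -/
  tr : ∀ {S : 𝓑.Obj} (X : Fam S) {s t : 𝓑.Pt S}, 𝓑.Path s t → Lin (V X s) (V X t)

attribute [instance] Families.ab Families.mod

variable {𝓑 : Bases} (D : Families 𝓑)

/-- The class `v` is algebraic. -/
def Families.IsAlg {S : 𝓑.Obj} {X : D.Fam S} {s : 𝓑.Pt S} (v : D.V X s) : Prop := v ∈ D.Alg X s

/-- Parallel transport respects the composition of paths. -/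
structure Transport : Prop where
  refl : ∀ {S : 𝓑.Obj} (X : D.Fam S) (s : 𝓑.Pt S) (v : D.V X s), (D.tr X (𝓑.refl s)).app v = v
  symm : ∀ {S : 𝓑.Obj} (X : D.Fam S) {s t : 𝓑.Pt S} (γ : 𝓑.Path s t) (v : D.V X s),
    (D.tr X (𝓑.symm γ)).app ((D.tr X γ).app v) = v
  trans : ∀ {S : 𝓑.Obj} (X : D.Fam S) {s t u : 𝓑.Pt S} (γ : 𝓑.Path s t) (δ : 𝓑.Path t u)
    (v : D.V X s), (D.tr X (𝓑.trans γ δ)).app v = (D.tr X δ).app ((D.tr X γ).app v)

/-- The disjoint union `Z` of the base changes of a family `X` along finitely many morphisms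
`π j : T → S`: a class has components `p t j v`; it is algebraic if all its components are, and the
transport along a path is the transport along its images. -/
def Pull : Prop :=
  ∀ {S T : 𝓑.Obj} (X : D.Fam S) (J : Type) [Finite J] [Nonempty J] (π : J → 𝓑.Mor T S),
    ∃ (Z : D.Fam T) (p : ∀ t j, Hom (D.V Z t) (D.V X (𝓑.map (π j) t))),
      (∀ t (a : ∀ j, D.V X (𝓑.map (π j) t)), ∃! v, ∀ j, (p t j).app v = a j) ∧
      (∀ t (v : D.V Z t), D.IsAlg v ↔ ∀ j, D.IsAlg ((p t j).app v)) ∧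
      ∀ {s t : 𝓑.Pt T} (γ : 𝓑.Path s t) v j,
        (p t j).app ((D.tr Z γ).app v) = (D.tr X (𝓑.img (π j) γ)).app ((p s j).app v)

/-- The push forward `Z` of a family `Y` over a cover `C` of `S` (the same `Y`, as a scheme over `S`):
its fibre at `s` is the disjoint union of the fibres of `Y` at the points of `C` over `s`, and the
transport along a path is the transport along the lifted paths. -/
def Push : Prop :=
  ∀ {S : 𝓑.Obj} (C : 𝓑.Cov S) (Y : D.Fam (𝓑.tot C)),
    ∃ (Z : D.Fam S) (p : ∀ s (x : Fib C s), Hom (D.V Z s) (D.V Y (up x))),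
      (∀ s (a : ∀ x : Fib C s, D.V Y (up x)), ∃! v, ∀ x, (p s x).app v = a x) ∧
      (∀ s (v : D.V Z s), D.IsAlg v ↔ ∀ x, D.IsAlg ((p s x).app v)) ∧
      ∀ {s t : 𝓑.Pt S} (γ : 𝓑.Path s t) (x : Fib C s), ∃ δ : 𝓑.Path (up x) (up (𝓑.lift C γ x)),
        ∀ v, (p t (𝓑.lift C γ x)).app ((D.tr Z γ).app v) = (D.tr Y δ).app ((p s x).app v)

/-- The orbit of a class under the fundamental group. -/
def orbit {S : 𝓑.Obj} (X : D.Fam S) (s : 𝓑.Pt S) (v : D.V X s) : Set (D.V X s) :=
  {w | ∃ γ : 𝓑.Path s s, (D.tr X γ).app v = w}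

/-- If the orbit of a class `v` is finite, then `v` is invariant on a finite étale cover. -/
def Covers : Prop :=
  ∀ {S : 𝓑.Obj} (X : D.Fam S) (s : 𝓑.Pt S) (v : D.V X s),
    (orbit D X s v).Finite → ∃ (C : 𝓑.Cov S) (x : Fib C s),
      ∀ γ : 𝓑.Path s s, 𝓑.lift C γ x = x → (D.tr X γ).app v = v

/-- A global section of the local system `K₀ᵗᵒᵖ(C/S) ⊗ ℚ`. -/
structure Flat {S : 𝓑.Obj} (X : D.Fam S) where
  /-- the fibres -/
  val : ∀ s : 𝓑.Pt S, D.V X s
  flat : ∀ {s t : 𝓑.Pt S} (γ : 𝓑.Path s t), (D.tr X γ).app (val s) = val t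

/-- The algebraic locus of a global section over `ℂ - B` is a countable union of closed subsets. -/
def Locus : Prop :=
  ∀ {B : Finset ℂ} (X : D.Fam (𝓑.aff (line B))) (φ : Flat D X),
    (∀ z, φ.val z ∈ D.Alg X z) ∨ {z | φ.val z ∈ D.Alg X z}.Countable

/-- Families over varieties, with the elementary facts on them which are used. -/
structure Theory (𝓑 : Bases) extends Families 𝓑 where
  facts : Facts 𝓑
  transport : Transport toFamilies
  pull : Pull toFamilies
  push : Push toFamilies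
  covers : Covers toFamilies
  locus : Locus toFamilies

/-- **Q1**: a global section which is algebraic at one point is algebraic everywhere. -/
def Q1 : Prop := ∀ (S : 𝓑.Obj) (X : D.Fam S) (φ : Flat D X) (o s : 𝓑.Pt S),
  φ.val o ∈ D.Alg X o → φ.val s ∈ D.Alg X s

/-- No global section over an open subset of the affine line is algebraic at exactly one point. -/
def OneMore : Prop := ∀ (B : Finset ℂ) (X : D.Fam (𝓑.aff (line B))) (φ : Flat D X)
  (z : 𝓑.Line B), φ.val z ∈ D.Alg X z → ∃ w, w ≠ z ∧ φ.val w ∈ D.Alg X w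

/-- Every global section over an open neighbourhood of `s` in `S` which is algebraic at `s` is algebraic
at one more point. -/
def OneMoreAt {S : 𝓑.Obj} (s : 𝓑.Pt S) : Prop := ∀ (S' : 𝓑.Obj) (e : 𝓑.Mor S' S) (s' : 𝓑.Pt S'),
  𝓑.Open e → 𝓑.map e s' = s → ∀ (X : D.Fam S') (φ : Flat D X), φ.val s' ∈ D.Alg X s' →
    ∃ t, t ≠ s' ∧ φ.val t ∈ D.Alg X t

/-- Over open subsets of the affine line, the set of the algebraic classes with finite orbits is
stable under the fundamental group. -/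
def OrbitsStable : Prop := ∀ (B : Finset ℂ) (X : D.Fam (𝓑.aff (line B))) (z : 𝓑.Line B)
  (v : D.V X z), (orbit D X z v).Finite → v ∈ D.Alg X z → ∀ w ∈ orbit D X z v, w ∈ D.Alg X z

/-- Over open subsets of the affine line, the sum over the (finite) orbit of an algebraic class is
algebraic. -/
def OrbitSums : Prop := ∀ (B : Finset ℂ) (X : D.Fam (𝓑.aff (line B))) (z : 𝓑.Line B)
  (v : D.V X z) (h : (orbit D X z v).Finite), v ∈ D.Alg X z → ∑ w ∈ h.toFinset, w ∈ D.Alg X z

/-- `Pattern m G W ρ u K L`: for some finite `B` without the points `u i`, and some family over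
`ℂ - B`, the local system `K₀ᵗᵒᵖ(C/S) ⊗ ℚ` contains the local system with fibre `W` and monodromy the
representation `ρ` of `G` (all elements of `G` occur), and the algebraic classes in the fibre `W` are
exactly those in `K i` at `u i`, and exactly those in `L` at all other points of `ℂ - B`. -/
def Pattern (m : ℕ) (G W : Type) [Group G] [AddCommGroup W] [Module ℚ W]
    (ρ : Rep G W) (u : Fin m → ℂ) (K : Fin m → Submodule ℚ W) (L : Submodule ℚ W) : Prop :=
  ∃ (B : Finset ℂ) (X : D.Fam (𝓑.aff (line B))) (f : ∀ z, Hom W (D.V X z)),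
    (∀ i, u i ∉ B) ∧ (∀ z, Function.Injective (f z).app) ∧
    (∀ {z z' : 𝓑.Line B} (γ : 𝓑.Path z z'), ∃ g : G, ∀ w,
      (D.tr X γ).app ((f z).app w) = (f z').app (ρ.act g w)) ∧
    (∀ (z z' : 𝓑.Line B) (g : G), ∃ γ : 𝓑.Path z z', ∀ w,
      (D.tr X γ).app ((f z).app w) = (f z').app (ρ.act g w)) ∧
    (∀ i z, coord z = u i → ∀ w, (f z).app w ∈ D.Alg X z ↔ w ∈ K i) ∧
    ∀ z, (∀ i, coord z ≠ u i) → ∀ w, (f z).app w ∈ D.Alg X z ↔ w ∈ L

/-- `L` is `G`-stable and contained in all `K i`. -/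
def Admissible {m : ℕ} {G W : Type} [Group G] [AddCommGroup W] [Module ℚ W]
    (ρ : Rep G W) (K : Fin m → Submodule ℚ W) (L : Submodule ℚ W) : Prop :=
  (∀ γ, ∀ w ∈ L, ρ.act γ w ∈ L) ∧ ∀ i, L ≤ K i

/-- `Z` is the algebraic locus of a global section over an open subset `U` of `ℂⁿ` which contains `Z`
and `F`. -/
def IsLocus {n : ℕ} (Z F : Set (Fin n → ℂ)) : Prop :=
  ∃ (U : ZOpen n) (X : D.Fam (𝓑.aff U)) (φ : Flat D X), Z ⊆ U.carrier ∧ F ⊆ U.carrier ∧
    ∀ x, φ.val x ∈ D.Alg X x ↔ (𝓑.pt U x).1 ∈ Z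

variable {D} {T : Theory 𝓑}

theorem Flat.map {S : 𝓑.Obj} {X : T.Fam S} (φ : Flat T.toFamilies X) {s t : 𝓑.Pt S}
    (γ : 𝓑.Path s t) : T.tr X γ (φ.val s) = φ.val t := φ.flat γ

/-- an invariant class is the value of a global section -/
theorem exists_flat {S : 𝓑.Obj} (X : T.Fam S) (s : 𝓑.Pt S) (v : T.V X s)
    (hv : ∀ γ : 𝓑.Path s s, T.tr X γ v = v) :
    ∃ φ : Flat T.toFamilies X, φ.val s = v ∧ ∀ t (γ : 𝓑.Path s t), φ.val t = T.tr X γ v := by
  let p : ∀ t, 𝓑.Path s t := fun t => Classical.choice (T.facts.connected s t)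
  have htrans : ∀ {s t u : 𝓑.Pt S} (γ : 𝓑.Path s t) (δ : 𝓑.Path t u) (v : T.V X s),
      T.tr X (𝓑.trans γ δ) v = T.tr X δ (T.tr X γ v) := fun γ δ v => T.transport.trans X γ δ v
  have hsymm : ∀ {s t : 𝓑.Pt S} (γ : 𝓑.Path s t) (v : T.V X s),
      T.tr X (𝓑.symm γ) (T.tr X γ v) = v := fun γ v => T.transport.symm X γ v
  have key : ∀ t (γ : 𝓑.Path s t), T.tr X (p t) v = T.tr X γ v := by
    intro t γ
    have h1 := hv (𝓑.trans (p t) (𝓑.symm γ))
    rw [htrans] at h1
    have h2 : T.tr X (𝓑.symm γ) (T.tr X (p t) v) = T.tr X (𝓑.symm γ) (T.tr X γ v) := by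
      rw [h1, hsymm]
    exact (T.tr X (𝓑.symm γ)).injective h2
  refine ⟨⟨fun t => T.tr X (p t) v, fun {t t'} γ => ?_⟩, ?_, key⟩
  · have h1 := key t' (𝓑.trans (p t) γ)
    rw [htrans] at h1
    exact h1.symm
  · have h1 := key s (𝓑.refl s)
    exact h1.trans (T.transport.refl X s v)

/-- a nonzero global section has no zeros -/
theorem Flat.ne_zero {S : 𝓑.Obj} {X : T.Fam S} (φ : Flat T.toFamilies X) {s : 𝓑.Pt S}
    (hs : φ.val s ≠ 0) (t : 𝓑.Pt S) : φ.val t ≠ 0 := by
  intro h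
  obtain ⟨γ⟩ := T.facts.connected t s
  have h1 := φ.map γ
  rw [h, map_zero] at h1
  exact hs h1.symm

/-- the components of a class as an isomorphism -/
theorem exists_equiv {I V : Type} [AddCommGroup V] [Module ℚ V] (U : I → Type)
    [∀ i, AddCommGroup (U i)] [∀ i, Module ℚ (U i)] (p : ∀ i, Hom V (U i))
    (hp : ∀ a : ∀ i, U i, ∃! v, ∀ i, (p i).app v = a i) :
    ∃ Φ : V ≃ₗ[ℚ] (∀ i, U i), ∀ v i, Φ v i = p i v := by
  refine ⟨LinearEquiv.ofBijective (LinearMap.pi p) ⟨?_, ?_⟩, fun v i => rfl⟩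
  · intro v w h
    exact (hp (LinearMap.pi p w)).unique (fun i => congrFun h i) (fun i => rfl)
  · intro a
    obtain ⟨v, hv, -⟩ := hp a
    exact ⟨v, funext hv⟩

/-- the axiom on unions of base changes, with an isomorphism -/
theorem exists_pull {S S' : 𝓑.Obj} (X : T.Fam S) (J : Type) [Finite J] [Nonempty J]
    (π : J → 𝓑.Mor S' S) :
    ∃ (Z : T.Fam S') (Φ : ∀ t, T.V Z t ≃ₗ[ℚ] (∀ j, T.V X (𝓑.map (π j) t))),
      (∀ t v, v ∈ T.Alg Z t ↔ ∀ j, Φ t v j ∈ T.Alg X (𝓑.map (π j) t)) ∧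
      ∀ {s t : 𝓑.Pt S'} (γ : 𝓑.Path s t) v j,
        Φ t (T.tr Z γ v) j = T.tr X (𝓑.img (π j) γ) (Φ s v j) := by
  obtain ⟨Z, p, h1, h2, h3⟩ := T.pull X J π
  choose Φ hΦ using fun t => exists_equiv _ (p t) (h1 t)
  refine ⟨Z, Φ, ?_, ?_⟩
  · intro t v
    refine (h2 t v).trans (forall_congr' fun j => ?_)
    rw [hΦ]
    exact Iff.rfl
  · intro s t γ v j
    rw [hΦ, hΦ]
    exact h3 γ v j

/-- the axiom on push forwards, with an isomorphism -/
theorem exists_push {S : 𝓑.Obj} (C : 𝓑.Cov S) (Y : T.Fam (𝓑.tot C)) :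
    ∃ (Z : T.Fam S) (Φ : ∀ s, T.V Z s ≃ₗ[ℚ] (∀ x : Fib C s, T.V Y x.1)),
      (∀ s v, v ∈ T.Alg Z s ↔ ∀ x, Φ s v x ∈ T.Alg Y x.1) ∧
      ∀ {s t : 𝓑.Pt S} (γ : 𝓑.Path s t) (x : Fib C s), ∃ δ : 𝓑.Path x.1 (𝓑.lift C γ x).1,
        ∀ v, Φ t (T.tr Z γ v) (𝓑.lift C γ x) = T.tr Y δ (Φ s v x) := by
  obtain ⟨Z, p, h1, h2, h3⟩ := T.push C Y
  choose Φ hΦ using fun t => exists_equiv _ (p t) (h1 t)
  refine ⟨Z, Φ, ?_, ?_⟩
  · intro t v
    refine (h2 t v).trans (forall_congr' fun j => ?_)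
    rw [hΦ]
    exact Iff.rfl
  · intro s t γ x
    obtain ⟨δ, hδ⟩ := h3 γ x
    refine ⟨δ, fun v => ?_⟩
    rw [hΦ, hΦ]
    exact hδ v

/-- global sections of the disjoint union of the base changes along the `π j` -/
theorem pull_sections {S S' : 𝓑.Obj} (X : T.Fam S) (ψ : Flat T.toFamilies X)
    (hψ : ∀ s, ψ.val s ≠ 0) (J : Type) [Finite J] [Nonempty J] (π : J → 𝓑.Mor S' S) :
    ∃ (Y : T.Fam S') (E : ∀ t, (J → ℚ) →ₗ[ℚ] T.V Y t),
      (∀ t a, E t a ∈ T.Alg Y t ↔
        ∀ j, a j ≠ 0 → ψ.val (𝓑.map (π j) t) ∈ T.Alg X (𝓑.map (π j) t)) ∧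
      (∀ {s t : 𝓑.Pt S'} (γ : 𝓑.Path s t) a, T.tr Y γ (E s a) = E t a) ∧
      ∀ t, Function.Injective (E t) := by
  obtain ⟨Y, Φ, h1, h2⟩ := exists_pull X J π
  let M : ∀ t, (J → ℚ) →ₗ[ℚ] (∀ j, T.V X (𝓑.map (π j) t)) := fun t => LinearMap.pi fun j =>
    LinearMap.toSpanSingleton ℚ _ (ψ.val (𝓑.map (π j) t)) ∘ₗ LinearMap.proj j
  have hM : ∀ t a j, M t a j = a j • ψ.val (𝓑.map (π j) t) := fun t a j => rfl
  let E : ∀ t, (J → ℚ) →ₗ[ℚ] T.V Y t := fun t => (Φ t).symm.toLinearMap ∘ₗ M t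
  have hE : ∀ t a, Φ t (E t a) = M t a := fun t a => (Φ t).apply_symm_apply _
  refine ⟨Y, E, ?_, ?_, ?_⟩
  · intro t a
    rw [h1]
    refine forall_congr' fun j => ?_
    rw [hE, hM]
    constructor
    · intro h ha
      exact (Submodule.smul_mem_iff _ ha).1 h
    · intro h
      by_cases ha : a j = 0
      · rw [ha, zero_smul]
        exact Submodule.zero_mem _
      · exact Submodule.smul_mem _ _ (h ha)
  · intro s t γ a
    apply (Φ t).injective
    funext j
    rw [h2, hE, hE, hM, hM, map_smul, ψ.map]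
  · intro t
    rw [injective_iff_map_eq_zero]
    intro a ha
    funext j
    have h3 : a j • ψ.val (𝓑.map (π j) t) = 0 := by
      rw [← hM, ← hE, ha, map_zero]
      rfl
    exact (smul_eq_zero.1 h3).resolve_right (hψ _)

/-- classes on the push forward of a family over a cover -/
theorem push_sections {S : 𝓑.Obj} (C : 𝓑.Cov S) (Y : T.Fam (𝓑.tot C)) (A : Type)
    [AddCommGroup A] [Module ℚ A] (E : ∀ x, A →ₗ[ℚ] T.V Y x)
    (hE : ∀ {x y : 𝓑.Pt (𝓑.tot C)} (γ : 𝓑.Path x y) a, T.tr Y γ (E x a) = E y a)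
    (hinj : ∀ x, Function.Injective (E x)) :
    ∃ (Z : T.Fam S) (F : ∀ z, (Fib C z → A) →ₗ[ℚ] T.V Z z),
      (∀ z b, F z b ∈ T.Alg Z z ↔ ∀ x, E x.1 (b x) ∈ T.Alg Y x.1) ∧
      (∀ {z w : 𝓑.Pt S} (γ : 𝓑.Path z w) (b : Fib C z → A) (b' : Fib C w → A),
        (∀ x, b' (𝓑.lift C γ x) = b x) → T.tr Z γ (F z b) = F w b') ∧
      ∀ z, Function.Injective (F z) := by
  obtain ⟨Z, Φ, h1, h2⟩ := exists_push C Y
  let M : ∀ z, (Fib C z → A) →ₗ[ℚ] (∀ x : Fib C z, T.V Y x.1) := fun z => LinearMap.pi fun x =>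
    E x.1 ∘ₗ LinearMap.proj x
  have hM : ∀ z b x, M z b x = E x.1 (b x) := fun z b x => rfl
  let F : ∀ z, (Fib C z → A) →ₗ[ℚ] T.V Z z := fun z => (Φ z).symm.toLinearMap ∘ₗ M z
  have hF : ∀ z b, Φ z (F z b) = M z b := fun z b => (Φ z).apply_symm_apply _
  refine ⟨Z, F, ?_, ?_, ?_⟩
  · intro z b
    rw [h1]
    refine forall_congr' fun x => ?_
    rw [hF, hM]
  · intro z w γ b b' hb
    apply (Φ w).injective
    funext y
    obtain ⟨x, rfl⟩ := (T.facts.lift_bijective C γ).2 y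
    obtain ⟨δ, hδ⟩ := h2 γ x
    rw [hδ, hF, hF, hM, hM, hb, hE]
  · intro z
    rw [injective_iff_map_eq_zero]
    intro b hb
    funext x
    have h3 : E x.1 (b x) = 0 := by
      rw [← hM, ← hF, hb, map_zero]
      rfl
    exact hinj _ (h3.trans (map_zero _).symm)

theorem coord_injective {B : Finset ℂ} {z w : 𝓑.Line B} (h : coord z = coord w) : z = w := by
  apply (𝓑.pt (line B)).injective
  apply Subtype.ext
  funext i
  rw [Fin.fin_one_eq_zero i]
  exact h

theorem coord_notMem {B : Finset ℂ} (z : 𝓑.Line B) : coord z ∉ B := (𝓑.pt (line B) z).2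

theorem exists_coord {B : Finset ℂ} (c : ℂ) (hc : c ∉ B) : ∃ z : 𝓑.Line B, coord z = c := by
  refine ⟨(𝓑.pt (line B)).symm ⟨fun _ => c, hc⟩, ?_⟩
  unfold coord
  rw [Equiv.apply_symm_apply]

/-- **Step 1.** If Q1 fails, it fails over some `ℂ - B`, with a global section which is algebraic at
`0`. -/
theorem step1 (h : ¬ Q1 T.toFamilies) : ∃ (B : Finset ℂ) (X : T.Fam (𝓑.aff (line B)))
    (ψ : Flat T.toFamilies X), (∃ z : 𝓑.Line B, coord z = 0 ∧ ψ.val z ∈ T.Alg X z) ∧
      (∀ z, ψ.val z ≠ 0) ∧ ∃ z, ψ.val z ∉ T.Alg X z := by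
  unfold Q1 at h
  push Not at h
  obtain ⟨S, X, φ, o, s, ho, hs⟩ := h
  have hs0 : φ.val s ≠ 0 := fun h0 => hs (h0 ▸ Submodule.zero_mem _)
  obtain ⟨B, C, π, h0, hπ, x, hx⟩ := T.facts.correspondence o s
  obtain ⟨Y, E, hE1, hE2, hE3⟩ := pull_sections X φ (φ.ne_zero hs0) Unit (fun _ => π)
  obtain ⟨Z, F, hF1, hF2, hF3⟩ := push_sections C Y (Unit → ℚ) E hE2 hE3
  obtain ⟨z₀, hz₀⟩ := exists_coord (𝓑 := 𝓑) (B := B) 0 h0
  refine ⟨B, Z, ⟨fun z => F z fun _ _ => 1, fun γ => hF2 γ _ _ fun x => rfl⟩, ⟨z₀, hz₀, ?_⟩, ?_,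
    𝓑.map (𝓑.proj C) x, ?_⟩
  · rw [hF1]
    intro y
    rw [hE1]
    intro _ _
    have h1 : 𝓑.map π y.1 = o := by
      apply hπ
      unfold Bases.val
      rw [y.2, hz₀]
    rw [h1]
    exact ho
  · intro z h1
    have h2 := hF3 z (h1.trans (map_zero _).symm)
    obtain ⟨y⟩ := (T.facts.fibre C z).2
    have h3 := congrFun (congrFun h2 y) ()
    exact one_ne_zero h3
  · intro h1
    rw [hF1] at h1
    have h2 := (hE1 _ _).1 (h1 ⟨x, rfl⟩) () one_ne_zero
    rw [hx] at h2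
    exact hs h2

/-- **Step 2.** If Q1 fails, some global section over some `ℂ - B` is algebraic exactly at `0`. -/
theorem step2 (h : ¬ Q1 T.toFamilies) : ∃ (B : Finset ℂ) (X : T.Fam (𝓑.aff (line B)))
    (ψ : Flat T.toFamilies X), (0 : ℂ) ∉ B ∧ (∀ z, ψ.val z ≠ 0) ∧
      ∀ z, ψ.val z ∈ T.Alg X z ↔ coord z = 0 := by
  classical
  obtain ⟨B, X, ψ, ⟨z₀, hz₀, hz₀a⟩, hnz, z₁, hz₁⟩ := step1 h
  have h0B : (0 : ℂ) ∉ B := hz₀ ▸ coord_notMem z₀
  have hcount : {z | ψ.val z ∈ T.Alg X z}.Countable :=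
    (T.locus X ψ).resolve_left fun h1 => hz₁ (h1 z₁)
  set E : Set ℂ := coord '' {z : 𝓑.Line B | ψ.val z ∈ T.Alg X z} with hE
  have hEc : E.Countable := hcount.image _
  have hEm : ∀ z : 𝓑.Line B, ψ.val z ∈ T.Alg X z ↔ coord z ∈ E := by
    intro z
    constructor
    · intro h1
      exact ⟨z, h1, rfl⟩
    · rintro ⟨w, hw, h1⟩
      rw [← coord_injective h1]
      exact hw
  set R : Set ℂ := (fun q : ℂ × ℂ => q.2 / q.1) '' (E ×ˢ E) ∪ {0} with hR
  have hRc : R.Countable := ((hEc.prod hEc).image _).union (Set.countable_singleton 0)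
  obtain ⟨c, hc⟩ : ∃ c : ℂ, c ∉ R := by
    by_contra hcon
    push Not at hcon
    exact not_countable_complex (hRc.mono fun c _ => hcon c)
  have hc0 : c ≠ 0 := fun h1 => hc (Or.inr h1)
  have hcE : ∀ z ∈ E, c * z ∈ E → z = 0 := by
    intro z hz hcz
    by_contra hz0
    apply hc
    left
    refine ⟨(z, c * z), ⟨hz, hcz⟩, ?_⟩
    show c * z / z = c
    field_simp
  -- the two pull backs
  set B' : Finset ℂ := B ∪ B.image (fun b => c⁻¹ * b) with hB'
  have h0B' : (0 : ℂ) ∉ B' := by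
    rw [hB', Finset.mem_union, Finset.mem_image]
    rintro (h1 | ⟨b, hb, h1⟩)
    · exact h0B h1
    · rcases mul_eq_zero.1 h1 with h2 | h2
      · exact hc0 (inv_eq_zero.1 h2)
      · exact h0B (h2 ▸ hb)
  obtain ⟨f₁, hf₁⟩ := T.facts.poly (line B') B (MvPolynomial.X 0) (by
    intro x hx h1
    rw [eval_X] at h1
    exact hx (Finset.mem_union_left _ h1))
  obtain ⟨f₂, hf₂⟩ := T.facts.poly (line B') B (MvPolynomial.C c * MvPolynomial.X 0) (by
    intro x hx h1
    rw [map_mul, eval_C, eval_X] at h1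
    refine hx (Finset.mem_union_right _ (Finset.mem_image.2 ⟨_, h1, ?_⟩))
    field_simp)
  have hg₁ : ∀ z : 𝓑.Line B', coord (𝓑.map f₁ z) = coord z := fun z => by
    rw [hf₁, eval_X]
    rfl
  have hg₂ : ∀ z : 𝓑.Line B', coord (𝓑.map f₂ z) = c * coord z := fun z => by
    rw [hf₂, map_mul, eval_C, eval_X]
    rfl
  obtain ⟨Y, F, hF1, hF2, hF3⟩ := pull_sections X ψ hnz Bool (fun b => if b then f₁ else f₂)
  refine ⟨B', Y, ⟨fun z => F z fun _ => 1, fun γ => hF2 γ _⟩, h0B', ?_, ?_⟩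
  · intro z h1
    have h2 := hF3 z (h1.trans (map_zero _).symm)
    exact one_ne_zero (congrFun h2 true)
  · intro z
    show F z (fun _ => 1) ∈ _ ↔ _
    rw [hF1]
    constructor
    · intro h1
      have h2 := h1 true one_ne_zero
      have h3 := h1 false one_ne_zero
      rw [hEm] at h2 h3
      simp only [if_true, Bool.false_eq_true, if_false, hg₁, hg₂] at h2 h3
      exact hcE _ h2 h3
    · intro h1 j _
      rw [hEm]
      have h2 : coord z₀ ∈ E := (hEm z₀).1 hz₀a
      rw [hz₀] at h2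
      cases j
      · simp only [Bool.false_eq_true, if_false, hg₂, h1, mul_zero]
        exact h2
      · simp only [if_true, hg₁, h1]
        exact h2

theorem exists_path (h : Facts 𝓑) {S : 𝓑.Obj} {C : 𝓑.Cov S} {z w : 𝓑.Pt S} (x : Fib C z)
    (y : Fib C w) : ∃ γ : 𝓑.Path z w, 𝓑.lift C γ x = y := by
  obtain ⟨x, rfl⟩ := x
  obtain ⟨y, rfl⟩ := y
  obtain ⟨δ⟩ := h.connected x y
  exact ⟨𝓑.img (𝓑.proj C) δ, (h.lift_iff C x y _).2 ⟨δ, rfl⟩⟩

/-- a subspace is the kernel of a map to `ℚⁿ`, for all large `n` -/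
theorem exists_ker {W : Type} [AddCommGroup W] [Module ℚ W] [FiniteDimensional ℚ W]
    (K : Submodule ℚ W) (n : ℕ) (hn : Module.finrank ℚ W ≤ n) :
    ∃ L : W →ₗ[ℚ] (Fin n → ℚ), ∀ w, L w = 0 ↔ w ∈ K := by
  have h1 : Module.finrank ℚ (W ⧸ K) ≤ n := (Submodule.finrank_quotient_le K).trans hn
  let β := Module.finBasis ℚ (W ⧸ K)
  let e : (W ⧸ K) →ₗ[ℚ] (Fin n → ℚ) := LinearMap.pi fun k =>
    if h : k.1 < Module.finrank ℚ (W ⧸ K) then β.coord ⟨k.1, h⟩ else 0
  refine ⟨e ∘ₗ K.mkQ, fun w => ?_⟩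
  rw [LinearMap.comp_apply]
  constructor
  · intro h
    have h2 : K.mkQ w = 0 := by
      apply β.ext_elem
      intro k
      have h3 := congrFun h ⟨k.1, lt_of_lt_of_le k.2 h1⟩
      have h4 : e (K.mkQ w) ⟨k.1, lt_of_lt_of_le k.2 h1⟩ = β.coord k (K.mkQ w) := by
        simp only [e, LinearMap.pi_apply]
        rw [dif_pos k.2]
      rw [h4] at h3
      rw [map_zero]
      exact h3
    rwa [Submodule.mkQ_apply, Submodule.Quotient.mk_eq_zero] at h2
  · intro h
    have h3 : K.mkQ w = 0 := by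
      rw [Submodule.mkQ_apply, Submodule.Quotient.mk_eq_zero]
      exact h
    rw [h3, map_zero]

/-- **Step 3.** Every pattern occurs if Q1 fails. -/
theorem pattern_of_not (h : ¬ Q1 T.toFamilies) (m : ℕ) (G W : Type) [Group G] [Finite G]
    [AddCommGroup W] [Module ℚ W] [FiniteDimensional ℚ W] (ρ : Rep G W) (u : Fin m → ℂ)
    (hu : Function.Injective u) (K : Fin m → Submodule ℚ W)
    (L : Submodule ℚ W) (hL : ∀ γ, ∀ w ∈ L, ρ γ w ∈ L) (hle : ∀ i, L ≤ K i) :
    Pattern T.toFamilies m G W ρ u K L := by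
  classical
  obtain ⟨B₀, X, ψ, h0, hnz, halg⟩ := step2 h
  -- the functionals
  let n := Module.finrank ℚ W + 1
  have hn : 0 < n := Nat.succ_pos _
  let K' : Option (Option (Fin m)) → Submodule ℚ W := fun i => i.elim ⊥ fun j => j.elim L K
  choose ℓ hℓ using fun i => exists_ker (K' i) n (Nat.le_succ _)
  -- the cover and the functions
  let A : Option (Fin m) → Set (Fin m × G) := fun j =>
    j.elim Set.univ fun i => {p | ¬ (p.1 = i ∧ p.2 = 1)}
  obtain ⟨B, C, Γ, c, r, hc, hr⟩ := T.facts.galois B₀ h0 G m u hu (Option (Fin m)) A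
  obtain ⟨t₀, ht₀⟩ := exists_coord (𝓑 := 𝓑) (B := B₀) 0 h0
  obtain ⟨r₀, hr₀⟩ := T.facts.const (𝓑.tot C) t₀
  let R : Option (Option (Fin m)) → 𝓑.Mor (𝓑.tot C) (𝓑.aff (line B₀)) := fun j => j.elim r₀ r
  let J := Option (Option (Fin m)) × Fin n
  have : Nonempty J := ⟨(none, ⟨0, hn⟩)⟩
  obtain ⟨Y, E, hE1, hE2, hE3⟩ := pull_sections X ψ hnz J (fun j => R j.1)
  obtain ⟨Z, F, hF1, hF2, hF3⟩ := push_sections C Y (J → ℚ) E hE2 hE3
  -- base points
  have hbase : ∀ z : 𝓑.Line B, ∃ x : Fib C z, ∀ i, coord z = u i → x.1 = c i := by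
    intro z
    by_cases hz : ∃ i, coord z = u i
    · obtain ⟨i, hi⟩ := hz
      refine ⟨⟨c i, ?_⟩, fun j hj => ?_⟩
      · apply coord_injective
        rw [hi]
        exact hc i
      · have h1 : i = j := hu (hi.symm.trans hj)
        show c i = c j
        rw [h1]
    · obtain ⟨x⟩ := (T.facts.fibre C z).2
      exact ⟨x, fun i hi => absurd ⟨i, hi⟩ hz⟩
  choose b hb using hbase
  -- the element of the group which moves the base point to `x`
  have hgrp : ∀ (z : 𝓑.Line B) (x : Fib C z), ∃! g : G, Γ.act g (b z).1 = x.1 := fun z x =>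
    Γ.transitive _ _ ((b z).2.trans x.2.symm)
  choose e he he' using hgrp
  have he2 : ∀ z x g, Γ.act g (b z).1 = x.1 → g = e z x := fun z x g h1 => he' z x g h1
  have hmem : ∀ (z : 𝓑.Line B) (g : G), 𝓑.map (𝓑.proj C) (Γ.act g (b z).1) = z := fun z g =>
    (Γ.proj_act g _).trans (b z).2
  have he3 : ∀ z g, e z ⟨Γ.act g (b z).1, hmem z g⟩ = g := fun z g => (he2 _ _ _ rfl).symm
  -- the embedding
  let Q : ∀ z, W →ₗ[ℚ] (Fib C z → J → ℚ) := fun z => LinearMap.pi fun x => LinearMap.pi fun j =>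
    LinearMap.proj j.2 ∘ₗ (ℓ j.1 ∘ₗ ρ (e z x))
  have hQ : ∀ z w x j, Q z w x j = ℓ j.1 (ρ (e z x) w) j.2 := fun z w x j => rfl
  let f : ∀ z, W →ₗ[ℚ] T.V Z z := fun z => F z ∘ₗ Q z
  have hf : ∀ z w, f z w = F z (Q z w) := fun z w => rfl
  have hequi : ∀ {z z' : 𝓑.Line B} (γ : 𝓑.Path z z') (g : G),
      (𝓑.lift C γ (b z)).1 = Γ.act g (b z').1 → ∀ w, T.tr Z γ (f z w) = f z' (ρ g⁻¹ w) := by
    intro z z' γ g hg w
    apply hF2
    intro x
    funext j
    rw [hQ, hQ]
    have h1 : e z' (𝓑.lift C γ x) = e z x * g := by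
      symm
      apply he2
      rw [Γ.mul, ← hg, ← Γ.lift_act γ (b z) (e z x)]
      have h2 : (⟨Γ.act (e z x) (b z).1, hmem z (e z x)⟩ : Fib C z) = x :=
        Subtype.ext (show Γ.act (e z x) (b z).1 = x.1 from he z x)
      rw [h2]
    rw [h1, map_mul, Module.End.mul_apply, ← Module.End.mul_apply (ρ g), ← map_mul, mul_inv_cancel,
      map_one, Module.End.one_apply]
  have hkey : ∀ z w, f z w ∈ T.Alg Z z ↔
      ∀ (g : G) (j : Option (Fin m)),
        coord (𝓑.map (r j) (Γ.act g (b z).1)) ≠ 0 → ℓ (some j) (ρ g w) = 0 := by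
    intro z w
    rw [hf, hF1]
    constructor
    · intro h1 g j h2
      have h3 := (hE1 _ _).1 (h1 ⟨Γ.act g (b z).1, hmem z g⟩)
      funext k
      by_contra h4
      have h5 : ψ.val (𝓑.map (r j) (Γ.act g (b z).1)) ∈ T.Alg X _ := by
        refine h3 (some j, k) ?_
        rw [hQ, he3]
        exact h4
      rw [halg] at h5
      exact h2 h5
    · intro h1 x
      rw [hE1]
      rintro ⟨j, k⟩ h2
      rw [hQ] at h2
      cases j with
      | none =>
        show ψ.val (𝓑.map r₀ x.1) ∈ T.Alg X (𝓑.map r₀ x.1)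
        rw [halg, hr₀]
        exact ht₀
      | some j =>
        show ψ.val (𝓑.map (r j) x.1) ∈ T.Alg X (𝓑.map (r j) x.1)
        rw [halg]
        by_contra h3
        apply h2
        have h4 := h1 (e z x) j (by rw [he]; exact h3)
        exact congrFun h4 k
  have hzero : ∀ (z : 𝓑.Line B) (g : G) (j : Option (Fin m)),
      coord (𝓑.map (r j) (Γ.act g (b z).1)) = 0 ↔ ∃ i, coord z = u i ∧ (i, g) ∈ A j := by
    intro z g j
    rw [hr]
    constructor
    · rintro ⟨p, hp, h1⟩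
      have h2 : coord z = u p.1 := by
        have h3 := congrArg (𝓑.map (𝓑.proj C)) h1
        rw [Γ.proj_act, Γ.proj_act, (b z).2] at h3
        rw [h3]
        exact hc p.1
      refine ⟨p.1, h2, ?_⟩
      rw [← hb z p.1 h2] at h1
      have h4 : g = p.2 := (he2 z ⟨_, hmem z g⟩ g rfl).trans (he2 z ⟨_, hmem z g⟩ p.2 h1.symm).symm
      rw [h4]
      exact hp
    · rintro ⟨i, hi, h1⟩
      exact ⟨(i, g), h1, by rw [hb z i hi]⟩
  refine ⟨B, Z, f, ?_, ?_, ?_, ?_, ?_, ?_⟩
  · intro i hi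
    rw [← hc i] at hi
    exact coord_notMem _ hi
  · intro z
    show Function.Injective (f z)
    rw [injective_iff_map_eq_zero]
    intro w hw
    have h1 : Q z w = 0 := hF3 z (hw.trans (map_zero _).symm)
    have h2 : w ∈ K' none := by
      rw [← hℓ]
      funext k
      have h3 := congrFun (congrFun h1 (b z)) ((none, k) : J)
      rw [hQ] at h3
      have h4 : (1 : G) = e z (b z) := he2 z (b z) 1 (Γ.one _)
      rw [← h4, map_one, Module.End.one_apply] at h3
      exact h3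
    exact (Submodule.mem_bot ℚ).1 h2
  · intro z z' γ
    obtain ⟨g, hg, -⟩ := Γ.transitive (b z').1 (𝓑.lift C γ (b z)).1
      ((b z').2.trans (𝓑.lift C γ (b z)).2.symm)
    exact ⟨g⁻¹, hequi γ g hg.symm⟩
  · intro z z' g
    obtain ⟨γ, hγ⟩ := exists_path T.facts (b z) ⟨Γ.act g⁻¹ (b z').1, hmem z' g⁻¹⟩
    refine ⟨γ, fun w => ?_⟩
    have h2 := hequi γ g⁻¹ (congrArg Subtype.val hγ) w
    rw [inv_inv] at h2
    exact h2
  · intro i z hz w
    show f z w ∈ _ ↔ _
    rw [hkey]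
    constructor
    · intro h1
      have h2 := h1 1 (some i) (by
        rw [ne_eq, hzero]
        rintro ⟨i', hi', h3⟩
        have h4 : i' = i := hu (hi'.symm.trans hz)
        exact h3 ⟨h4, rfl⟩)
      rw [map_one, Module.End.one_apply, hℓ] at h2
      exact h2
    · intro hw g j hj
      rw [ne_eq, hzero] at hj
      cases j with
      | none => exact absurd ⟨i, hz, trivial⟩ hj
      | some i' =>
        by_cases h1 : i = i' ∧ g = 1
        · rw [h1.2, map_one, Module.End.one_apply, hℓ, ← h1.1]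
          exact hw
        · exact absurd ⟨i, hz, h1⟩ hj
  · intro z hz w
    show f z w ∈ _ ↔ _
    rw [hkey]
    constructor
    · intro h1
      have h2 := h1 1 none (by
        rw [ne_eq, hzero]
        rintro ⟨i, hi, -⟩
        exact hz i hi)
      rw [map_one, Module.End.one_apply, hℓ] at h2
      exact h2
    · intro hw g j _
      rw [hℓ]
      have h1 := hL g w hw
      cases j with
      | none => exact h1
      | some i => exact hle i h1

/-- **Step 4.** Q1 implies that parallel transport preserves algebraic classes with finite orbits. -/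
theorem transport_of_q1 (h : Q1 T.toFamilies) {S : 𝓑.Obj} (X : T.Fam S)
    {z w : 𝓑.Pt S} (v : T.V X z) (hfin : (orbit T.toFamilies X z v).Finite)
    (hv : v ∈ T.Alg X z) (γ : 𝓑.Path z w) : T.tr X γ v ∈ T.Alg X w := by
  obtain ⟨C, ⟨x, rfl⟩, hx⟩ := T.covers X z v hfin
  obtain ⟨Y, Φ, h1, h2⟩ := exists_pull X Unit (fun _ => 𝓑.proj C)
  -- the class upstairs
  have hinv : ∀ δ : 𝓑.Path x x, T.tr Y δ ((Φ x).symm fun _ => v) = (Φ x).symm fun _ => v := by
    intro δ
    apply (Φ x).injective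
    funext j
    rw [h2, (Φ x).apply_symm_apply]
    exact hx (𝓑.img (𝓑.proj C) δ) ((T.facts.lift_iff C x x _).2 ⟨δ, rfl⟩)
  obtain ⟨φ, hφx, hφ⟩ := exists_flat Y x _ hinv
  obtain ⟨⟨y, rfl⟩, hy⟩ : ∃ y, 𝓑.lift C γ ⟨x, rfl⟩ = y := ⟨_, rfl⟩
  obtain ⟨δ, rfl⟩ := (T.facts.lift_iff C x y γ).1 hy
  have h3 : φ.val x ∈ T.Alg Y x := by
    rw [hφx, h1]
    intro j
    rw [(Φ x).apply_symm_apply]
    exact hv
  have h4 := h _ Y φ x y h3
  rw [h1] at h4
  have h5 := h4 ()
  rw [hφ y δ, h2, (Φ x).apply_symm_apply] at h5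
  exact h5

/-- **Step 5.** If Q1 holds, then in each pattern all `K i` are equal to `L`. -/
theorem eq_of_q1 (h : Q1 T.toFamilies) {m : ℕ} {G W : Type} [Group G] [Finite G] [AddCommGroup W]
    [Module ℚ W] (ρ : Rep G W) (u : Fin m → ℂ) (K : Fin m → Submodule ℚ W) (L : Submodule ℚ W)
    (hadm : Admissible ρ K L) (hP : Pattern T.toFamilies m G W ρ u K L) (i : Fin m) : K i = L := by
  classical
  obtain ⟨B, X, f, hu, -, h1, -, hK, hL⟩ := hP
  have hstab : ∀ γ, ∀ w ∈ L, ρ γ w ∈ L := hadm.1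
  refine le_antisymm ?_ (hadm.2 i)
  intro w hw
  obtain ⟨z, hz⟩ := exists_coord (𝓑 := 𝓑) (u i) (hu i)
  obtain ⟨c, hc⟩ := Infinite.exists_notMem_finset (B ∪ Finset.univ.image u)
  rw [Finset.mem_union, not_or] at hc
  obtain ⟨z', hz'⟩ := exists_coord (𝓑 := 𝓑) c hc.1
  have hz'u : ∀ j, coord z' ≠ u j := fun j h2 =>
    hc.2 (Finset.mem_image.2 ⟨j, Finset.mem_univ _, (h2.symm.trans hz')⟩)
  obtain ⟨γ⟩ := T.facts.connected z z'
  have hfin : (orbit T.toFamilies X z ((f z).app w)).Finite := by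
    refine (Set.finite_range (fun g : G => (f z).app (ρ.act g w))).subset ?_
    rintro v ⟨γ', rfl⟩
    obtain ⟨g, h4⟩ := h1 γ'
    exact ⟨g, (h4 w).symm⟩
  have h2 := transport_of_q1 h X ((f z).app w) hfin ((hK i z hz w).2 hw) γ
  obtain ⟨g, h4⟩ := h1 γ
  have h5 : T.tr X γ ((f z).app w) = (f z').app (ρ.act g w) := h4 w
  rw [h5] at h2
  have h6 : ρ g w ∈ L := (hL z' hz'u _).1 h2
  have h7 := hstab g⁻¹ _ h6
  rw [← Module.End.mul_apply, ← map_mul, inv_mul_cancel, map_one, Module.End.one_apply] at h7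
  exact h7

/-- the permutation representation of the symmetric group on two letters -/
def permRep : Rep (Equiv.Perm (Fin 2)) (Fin 2 → ℚ) where
  toFun σ := LinearMap.funLeft ℚ ℚ (σ⁻¹ : Equiv.Perm (Fin 2))
  map_one' := by
    ext w i
    simp [LinearMap.funLeft_apply]
  map_mul' σ τ := by
    ext w i
    simp [LinearMap.funLeft_apply]

theorem permRep_single (σ : Equiv.Perm (Fin 2)) (i : Fin 2) :
    permRep σ (Pi.single i 1) = Pi.single (σ i) 1 := by
  funext j
  show (Pi.single i (1 : ℚ) : Fin 2 → ℚ) (σ⁻¹ j) = _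
  by_cases h : j = σ i
  · subst h
    simp
  · rw [Pi.single_eq_of_ne h, Pi.single_eq_of_ne]
    intro h'
    apply h
    rw [← h']
    simp

/-- If Q1 fails, some monodromy orbit over some `ℂ - B` consists of two classes, one of which is
algebraic. -/
theorem orbit_two (h : ¬ Q1 T.toFamilies) : ∃ (B : Finset ℂ) (X : T.Fam (𝓑.aff (line B)))
    (z : 𝓑.Line B) (v w : T.V X z), v ≠ w ∧
    v ∈ T.Alg X z ∧ w ∉ T.Alg X z ∧ orbit T.toFamilies X z v = {v, w} := by
  obtain ⟨B, X, f, hu, hf, h1, h2, hK, -⟩ := pattern_of_not h 1 (Equiv.Perm (Fin 2))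
    (Fin 2 → ℚ) permRep (fun _ => 0) (Function.injective_of_subsingleton _)
    (fun _ => LinearMap.ker (LinearMap.proj (1 : Fin 2))) ⊥
    (by
      intro γ w hw
      rw [(Submodule.mem_bot ℚ).1 hw, map_zero]
      exact Submodule.zero_mem _) (fun _ => bot_le)
  obtain ⟨z, hz⟩ := exists_coord (𝓑 := 𝓑) (0 : ℂ) (hu 0)
  have hact : ∀ (σ : Equiv.Perm (Fin 2)) (i : Fin 2),
      Rep.act permRep σ (Pi.single i 1) = Pi.single (σ i) 1 := permRep_single
  refine ⟨B, X, z, (f z).app (Pi.single 0 1), (f z).app (Pi.single 1 1), ?_, ?_, ?_, ?_⟩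
  · intro h3
    have h4 := congrFun (hf z h3) 0
    simp at h4
  · rw [hK 0 z hz]
    simp
  · rw [hK 0 z hz]
    simp
  · ext v
    simp only [Set.mem_insert_iff, Set.mem_singleton_iff]
    constructor
    · rintro ⟨γ, rfl⟩
      obtain ⟨σ, h3⟩ := h1 γ
      rw [h3, hact]
      have h4 : σ 0 = 0 ∨ σ 0 = 1 := by omega
      rcases h4 with h4 | h4
      · left
        rw [h4]
      · right
        rw [h4]
    · rintro (rfl | rfl)
      · exact ⟨𝓑.refl z, T.transport.refl X z _⟩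
      · obtain ⟨γ, h3⟩ := h2 z z (Equiv.swap 0 1)
        refine ⟨γ, ?_⟩
        rw [h3, hact, Equiv.swap_apply_left]

/-- **Step 6.** If Q1 fails, then for every point `s` of every variety some global section over an
open neighbourhood of `s` is algebraic exactly at `s`. -/
theorem not_oneMoreAt (h : ¬ Q1 T.toFamilies) {S : 𝓑.Obj} (s : 𝓑.Pt S) :
    ¬ OneMoreAt T.toFamilies s := by
  classical
  obtain ⟨B, X, ψ, h0, hnz, halg⟩ := step2 h
  obtain ⟨S', e, s', n, r, he, hs, hr⟩ := T.facts.nbhd s B h0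
  obtain ⟨t₀, ht₀⟩ := exists_coord (𝓑 := 𝓑) (B := B) 0 h0
  obtain ⟨r₀, hr₀⟩ := T.facts.const S' t₀
  obtain ⟨Y, E, hE1, hE2, -⟩ := pull_sections X ψ hnz (Option (Fin n)) (fun j => j.elim r₀ r)
  have hkey : ∀ t, E t (fun _ => 1) ∈ T.Alg Y t ↔ t = s' := by
    intro t
    rw [hE1, ← hr]
    constructor
    · intro h1 j
      have h2 := h1 (some j) one_ne_zero
      rw [halg] at h2
      exact h2
    · intro h1 j _
      rw [halg]
      cases j with
      | none =>
        show coord (𝓑.map r₀ t) = 0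
        rw [hr₀]
        exact ht₀
      | some j => exact h1 j
  intro h1
  obtain ⟨t, ht, h2⟩ := h1 S' e s' he hs Y ⟨fun t => E t fun _ => 1, fun γ => hE2 γ _⟩
    ((hkey s').2 rfl)
  exact ht ((hkey t).1 h2)

/-- a closed set is the set of the zeros of finitely many polynomials -/
theorem closed_finite {n : ℕ} {Z : Set (Fin n → ℂ)} (hZ : ZClosed Z) :
    ∃ s : Finset (MvPolynomial (Fin n) ℂ), Z = {x | ∀ f ∈ s, eval x f = 0} := by
  obtain ⟨I, rfl⟩ := hZ
  have hfg : (Submodule.span (MvPolynomial (Fin n) ℂ) I).FG := IsNoetherian.noetherian _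
  rw [Submodule.fg_span_iff_fg_span_finset_subset] at hfg
  obtain ⟨s, hs, hspan⟩ := hfg
  refine ⟨s, ?_⟩
  ext x
  simp only [Set.mem_ofPred_eq]
  constructor
  · intro h f hf
    exact h f (hs hf)
  · intro h p hp
    have h1 : p ∈ Submodule.span (MvPolynomial (Fin n) ℂ) (s : Set (MvPolynomial (Fin n) ℂ)) := by
      rw [← hspan]; exact Submodule.subset_span hp
    refine Submodule.span_induction (p := fun q _ => eval x q = 0) ?_ ?_ ?_ ?_ h1
    · intro q hq; exact h q hq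
    · simp
    · intro q r _ _ hq hr; rw [map_add, hq, hr, add_zero]
    · intro a q _ hq; rw [smul_eq_mul, map_mul, hq, mul_zero]

/-- **Step 7.** If Q1 fails, every closed set is an algebraic locus. -/
theorem locus_of_not (h : ¬ Q1 T.toFamilies) {n : ℕ} (Z F : Set (Fin n → ℂ)) (hZ : ZClosed Z)
    (hF : F.Finite) : IsLocus T.toFamilies Z F := by
  classical
  obtain ⟨B, X, ψ, h0, hnz, halg⟩ := step2 h
  obtain ⟨s, rfl⟩ := closed_finite hZ
  -- the scaling factor
  let F' : Finset (Fin n → ℂ) := insert 0 hF.toFinset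
  obtain ⟨c, hc⟩ := Infinite.exists_notMem_finset
    (insert 0 ((F' ×ˢ (s ×ˢ B)).image fun q => q.2.2 / eval q.1 q.2.1))
  rw [Finset.mem_insert, not_or] at hc
  have hcF : ∀ x ∈ F', ∀ p ∈ s, c * eval x p ∉ B := by
    intro x hx p hp h1
    by_cases h2 : eval x p = 0
    · rw [h2, mul_zero] at h1
      exact h0 h1
    · apply hc.2
      refine Finset.mem_image.2 ⟨(x, p, c * eval x p), ?_, ?_⟩
      · exact Finset.mem_product.2 ⟨hx, Finset.mem_product.2 ⟨hp, h1⟩⟩
      · show c * eval x p / eval x p = c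
        field_simp
  let U : ZOpen n :=
    { carrier := {x | ∀ p ∈ s, c * eval x p ∉ B}
      nonempty := ⟨0, fun p hp => hcF 0 (Finset.mem_insert_self _ _) p hp⟩
      isOpen := by
        refine ⟨{∏ p ∈ s, ∏ b ∈ B, (MvPolynomial.C c * p - MvPolynomial.C b)}, ?_⟩
        ext x
        simp only [Set.mem_ofPred_eq, Set.mem_singleton_iff, exists_eq_left, map_prod, map_sub,
          map_mul, eval_C, ne_eq, Finset.prod_eq_zero_iff, not_exists, not_and, sub_eq_zero]
        constructor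
        · intro h1 p hp b hb h2
          exact h1 p hp (h2 ▸ hb)
        · intro h1 p hp h2
          exact h1 p hp _ h2 rfl }
  let P : Option {p // p ∈ s} → MvPolynomial (Fin n) ℂ := fun j =>
    j.elim 0 fun p => MvPolynomial.C c * p.1
  have hP : ∀ j, ∀ x ∈ U.carrier, eval x (P j) ∉ B := by
    intro j x hx
    cases j with
    | none =>
      show eval x 0 ∉ B
      rw [map_zero]
      exact h0
    | some p =>
      show eval x (MvPolynomial.C c * p.1) ∉ B
      rw [map_mul, eval_C]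
      exact hx p.1 p.2
  choose π hπ using fun j => T.facts.poly U B (P j) (hP j)
  obtain ⟨Y, E, hE1, hE2, hE3⟩ := pull_sections X ψ hnz _ π
  refine ⟨U, Y, ⟨fun t => E t fun _ => 1, fun γ => hE2 γ _⟩, ?_, ?_, ?_⟩
  · intro x hx p hp
    have h1 : eval x p = 0 := hx p hp
    rw [h1, mul_zero]
    exact h0
  · intro x hx p hp
    exact hcF x (Finset.mem_insert_of_mem (hF.mem_toFinset.2 hx)) p hp
  · intro t
    show E t (fun _ => 1) ∈ _ ↔ _
    rw [hE1]
    constructor
    · intro h1 p hp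
      have h2 := h1 (some ⟨p, hp⟩) one_ne_zero
      rw [halg, hπ] at h2
      have h3 : eval (𝓑.pt U t).1 (MvPolynomial.C c * p) = 0 := h2
      rw [map_mul, eval_C] at h3
      exact (mul_eq_zero.1 h3).resolve_left hc.1
    · intro h1 j _
      rw [halg, hπ]
      cases j with
      | none =>
        show eval _ 0 = 0
        rw [map_zero]
      | some p =>
        show eval _ (MvPolynomial.C c * p.1) = 0
        rw [map_mul, h1 p.1 p.2, mul_zero]

/-- if Q1 holds, a nonempty algebraic locus is the whole base, so it is not a proper closed subset -/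
theorem not_locus_of_q1 (h : Q1 T.toFamilies) {n : ℕ} (Z F : Set (Fin n → ℂ)) (hZ : ZClosed Z)
    (hne : Z.Nonempty) (hZu : Z ≠ Set.univ) : ¬ IsLocus T.toFamilies Z F := by
  rintro ⟨U, X, φ, hZU, -, hφ⟩
  obtain ⟨x, hx⟩ := hne
  have h1 : φ.val ((𝓑.pt U).symm ⟨x, hZU hx⟩) ∈ T.Alg X _ := by
    rw [hφ, Equiv.apply_symm_apply]
    exact hx
  have h2 : U.carrier ⊆ Z := by
    intro y hy
    have h3 := h _ X φ _ ((𝓑.pt U).symm ⟨y, hy⟩) h1
    rw [hφ, Equiv.apply_symm_apply] at h3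
    exact h3
  obtain ⟨I, hI⟩ := hZ
  obtain ⟨I', hI'⟩ := U.isOpen
  have h3 := hZU hx
  rw [hI'] at h3
  obtain ⟨q, hq, hqx⟩ := h3
  apply hZu
  rw [hI, Set.eq_univ_iff_forall]
  intro y p hp
  have h4 : p * q = 0 := by
    apply MvPolynomial.funext
    intro z
    rw [map_mul, map_zero]
    by_cases h5 : eval z q = 0
    · rw [h5, mul_zero]
    · have h6 : z ∈ U.carrier := by
        rw [hI']
        exact ⟨q, hq, h5⟩
      have h7 := h2 h6
      rw [hI] at h7
      rw [h7 p hp, zero_mul]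
  rcases mul_eq_zero.1 h4 with h5 | h5
  · rw [h5, map_zero]
  · rw [h5, map_zero] at hqx
    exact absurd rfl hqx

/-- **Theorem.** Q1, for all smooth bases, is equivalent to: (1) no global section over an open subset
`ℂ - B` of the affine line is algebraic at exactly one point; or: for one point `s` of one variety `S`
which is not a point (they may be chosen at will), no global section over an open neighbourhood of
`s` in `S` is algebraic exactly at `s`. (2) If Q1 fails, then every pattern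
occurs: for every finite group `G`, every finite-dimensional rational representation `ρ` of `G` on
`W`, all distinct `u 1, …, u m` in `ℂ`, all subspaces `K 1, …, K m` of `W` and every `G`-stable
subspace `L` of all of them, the local system of some family over some `ℂ - B`, `B` finite without the
`u i`, contains a local system with fibre `W` and monodromy `ρ`, in which the algebraic classes are
exactly `K i` at `u i` and exactly `L` at all other points. (3) Q1 is equivalent to: one such pattern,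
with `K i` different from `L` for some `i` (it may be chosen at will), does not occur. (4) Q1 is
equivalent to: over the `ℂ - B`, the fundamental group preserves the set of the algebraic classes
with finite orbits, and to: over the `ℂ - B`, the sum over the (finite) orbit of an algebraic class is
algebraic. (5) Q1 is equivalent to: one nonempty Zariski closed `Z` in `ℂⁿ`, not `ℂⁿ` (and one finite
`F`; they may be chosen at will), is not the algebraic locus of a global section over an open subset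
of `ℂⁿ` which contains `Z` and `F`. -/
theorem result (𝓑 : Bases) (T : Theory 𝓑) :
    (Q1 T.toFamilies ↔ OneMore T.toFamilies) ∧
    (∀ (S : 𝓑.Obj) (s : 𝓑.Pt S), Nontrivial (𝓑.Pt S) →
      (Q1 T.toFamilies ↔ OneMoreAt T.toFamilies s)) ∧
    (¬ Q1 T.toFamilies → ∀ (m : ℕ) (G W : Type) [Group G] [Finite G] [AddCommGroup W] [Module ℚ W]
      [FiniteDimensional ℚ W] (ρ : Rep G W) (u : Fin m → ℂ) (K : Fin m → Submodule ℚ W)
      (L : Submodule ℚ W), Function.Injective u → Admissible ρ K L →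
      Pattern T.toFamilies m G W ρ u K L) ∧
    (∀ (m : ℕ) (G W : Type) [Group G] [Finite G] [AddCommGroup W] [Module ℚ W]
      [FiniteDimensional ℚ W] (ρ : Rep G W) (u : Fin m → ℂ) (K : Fin m → Submodule ℚ W)
      (L : Submodule ℚ W), Function.Injective u → Admissible ρ K L → (∃ i, K i ≠ L) →
      (Q1 T.toFamilies ↔ ¬ Pattern T.toFamilies m G W ρ u K L)) ∧
    (Q1 T.toFamilies ↔ OrbitsStable T.toFamilies) ∧
    (Q1 T.toFamilies ↔ OrbitSums T.toFamilies) ∧
    ∀ (n : ℕ) (Z F : Set (Fin n → ℂ)), ZClosed Z → Z.Nonempty → Z ≠ Set.univ → F.Finite →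
      (Q1 T.toFamilies ↔ ¬ IsLocus T.toFamilies Z F) := by
  classical
  refine ⟨⟨?_, ?_⟩, ?_, fun h m G W _ _ _ _ _ ρ u K L hu h1 => pattern_of_not h m G W ρ u hu K L h1.1 h1.2,
    ?_, ⟨?_, ?_⟩, ⟨?_, ?_⟩, ?_⟩
  · intro h B X φ z hz
    obtain ⟨c, hc⟩ := Infinite.exists_notMem_finset (insert (coord z) B)
    rw [Finset.mem_insert, not_or] at hc
    obtain ⟨w, hw⟩ := exists_coord (𝓑 := 𝓑) c hc.2
    exact ⟨w, fun h1 => hc.1 (by rw [← hw, h1]), h _ X φ z w hz⟩
  · intro h
    by_contra hq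
    obtain ⟨B, X, ψ, h0, -, halg⟩ := step2 hq
    obtain ⟨z, hz⟩ := exists_coord (𝓑 := 𝓑) (0 : ℂ) h0
    obtain ⟨w, hw, h1⟩ := h B X ψ z ((halg z).2 hz)
    exact hw (coord_injective (((halg w).1 h1).trans hz.symm))
  · intro S s hS
    constructor
    · intro h S' e s' he _ X φ h1
      have := T.facts.open_two e he hS
      obtain ⟨t, ht⟩ := exists_ne s'
      exact ⟨t, ht, h S' X φ s' t h1⟩
    · intro h
      by_contra hq
      exact not_oneMoreAt hq s h
  · rintro m G W _ _ _ _ _ ρ u K L hu hadm ⟨i, hi⟩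
    constructor
    · intro h hP
      exact hi (eq_of_q1 h ρ u K L hadm hP i)
    · intro h
      by_contra hq
      exact h (pattern_of_not hq m G W ρ u hu K L hadm.1 hadm.2)
  · rintro h B X z v hfin hv w ⟨γ, rfl⟩
    exact transport_of_q1 h X v hfin hv γ
  · intro h
    by_contra hq
    obtain ⟨B, X, z, v, w, -, hv, hw, ho⟩ := orbit_two hq
    exact hw (h B X z v (by rw [ho]; exact Set.toFinite _) hv w (by rw [ho]; simp))
  · intro h B X z v hfin hv
    refine Submodule.sum_mem _ fun w hw => ?_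
    obtain ⟨γ, rfl⟩ := hfin.mem_toFinset.1 hw
    exact transport_of_q1 h X v hfin hv γ
  · intro h
    by_contra hq
    obtain ⟨B, X, z, v, w, hne, hv, hw, ho⟩ := orbit_two hq
    have hfin : (orbit T.toFamilies X z v).Finite := by rw [ho]; exact Set.toFinite _
    have h1 := h B X z v hfin hv
    have h2 : hfin.toFinset = {v, w} := by
      ext x
      rw [hfin.mem_toFinset, ho]
      simp
    rw [h2, Finset.sum_pair hne] at h1
    exact hw (by simpa using Submodule.sub_mem _ h1 hv)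
  · intro n Z F hZ hne hZu hF
    exact ⟨fun h => not_locus_of_q1 h Z F hZ hne hZu, fun h => by
      by_contra hq
      exact h (locus_of_not hq Z F hZ hF)⟩

end Pool.Agent.Results.MP_298761_ag.OneMorePoint
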